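import Pool.Agent.H82.G4.Targets

/-! NRS: rescaling of all the caps of radius `1/K`, strong form
(after `Pool.Agent.H22.G4.NAR`, `Pool.Agent.H69.G.NAR`). -/

set_option autoImplicit false

namespace Pool.Agent.H13.G4.NRS

open MeasureTheory Set Pool.Agent.H83.G Pool.Agent.H22.G4 Pool.Agent.H82.G4 Metric
open scoped ENNReal NNReal RealInnerProductSpace

private instance haarY {m : ℕ} : (volume : Measure (E m × ℝ)).IsAddHaarMeasure :=
  inferInstanceAs ((volume : Measure (E m)).prod (volume : Measure ℝ)).IsAddHaarMeasure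

private instance haarZ {m : ℕ} : (volume : Measure (Z m)).IsAddHaarMeasure :=
  inferInstanceAs ((volume : Measure ℝ).prod (volume : Measure (E m × ℝ))).IsAddHaarMeasure

/-- counting separated points in a plank -/
private theorem count (hLOA : T_LOA) (hLOB : T_LOB) (hLOI : T_LOI) (m : ℕ) (D ρ : ℝ) (hD : 0 ≤ D)
    (_hρ : 0 ≤ ρ) :
    ∃ C : ℝ, 0 < C ∧ ∀ (η : E m) (s : ℝ) (z' : Z m) (X : Finset (Z m)), ‖η‖ ≤ D → 0 < s →
      s ≤ 1 → Sep X → (∀ z ∈ X, ‖Lo η s z - Lo η s z'‖ ≤ ρ) →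
      (X.card : ℝ) ≤ C * (s⁻¹) ^ (m + 2) := by
  set B : ℝ := ρ + (1 + D) ^ 2 with hB
  set c0 : ℝ≥0∞ := volume (ball (0 : Z m) (1 / 2)) with hc0
  set V : ℝ≥0∞ := volume (closedBall (0 : Z m) B) with hV
  have hc0' : c0 ≠ 0 := (measure_ball_pos volume (0 : Z m) (by norm_num)).ne'
  have hc0t : c0 ≠ ⊤ := measure_ball_lt_top.ne
  have hVt : V ≠ ⊤ := measure_closedBall_lt_top.ne
  refine ⟨(V / c0).toReal + 1, by positivity, ?_⟩
  intro η s z' X hη hs hs1 hX hnear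
  have h1 : (X.card : ℝ≥0∞) * c0 ≤ ENNReal.ofReal ((s⁻¹) ^ (m + 2)) * V := by
    have hdisj : (X : Set (Z m)).PairwiseDisjoint (fun z => ball z (1 / 2)) := by
      intro a ha b hb hab
      refine ball_disjoint_ball ?_
      rw [dist_eq_norm]
      have := hX a (Finset.mem_coe.1 ha) b (Finset.mem_coe.1 hb) hab
      linarith
    have e1 : (X.card : ℝ≥0∞) * c0 = volume (⋃ z ∈ X, ball z (1 / 2 : ℝ)) := by
      rw [measure_biUnion_finset hdisj (fun z _ => measurableSet_ball)]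
      rw [Finset.sum_congr rfl (fun z _ => Measure.addHaar_ball_center volume z (1 / 2))]
      rw [Finset.sum_const, nsmul_eq_mul]
    have e2 : (⋃ z ∈ X, ball z (1 / 2 : ℝ)) ⊆
        {u : Z m | Lo η s (u - z') ∈ closedBall (0 : Z m) B} := by
      intro u hu
      simp only [mem_iUnion, mem_ball, exists_prop] at hu
      obtain ⟨z, hz, huz⟩ := hu
      rw [Set.mem_ofPred_eq, mem_closedBall, dist_zero_right]
      have e3 : Lo η s (u - z') = Lo η s (u - z) + (Lo η s z - Lo η s z') := by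
        rw [((hLOA m).1 η s u z').2.1, ((hLOA m).1 η s u z).2.1]
        abel
      rw [e3]
      have e4 : ‖Lo η s (u - z)‖ ≤ (1 + D) ^ 2 * ‖u - z‖ :=
        (((hLOB m D hD).1) η s (u - z) hη hs.le hs1).1
      have e5 : ‖u - z‖ < 1 / 2 := by rwa [← dist_eq_norm]
      have e6 : (1 + D) ^ 2 * ‖u - z‖ ≤ (1 + D) ^ 2 * 1 :=
        mul_le_mul_of_nonneg_left (by linarith) (by positivity)
      calc _ ≤ ‖Lo η s (u - z)‖ + ‖Lo η s z - Lo η s z'‖ := norm_add_le _ _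
        _ ≤ (1 + D) ^ 2 * 1 + ρ := add_le_add (e4.trans e6) (hnear z hz)
        _ = B := by rw [hB]; ring
    have hmB : MeasurableSet (closedBall (0 : Z m) B) := measurableSet_closedBall
    have hcont : Continuous fun u : Z m => Lo η s (u - z') :=
      ((hLOI m η s hs).2.2.2.2.1.continuous).comp (continuous_id.sub continuous_const)
    have e7 : volume {u : Z m | Lo η s (u - z') ∈ closedBall (0 : Z m) B} =
        ENNReal.ofReal ((s⁻¹) ^ (m + 2)) * V := by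
      have hm1 : MeasurableSet {u : Z m | Lo η s (u - z') ∈ closedBall (0 : Z m) B} :=
        hcont.measurable hmB
      rw [← lintegral_indicator_one hm1]
      have e8 : ∀ u : Z m, ({u : Z m | Lo η s (u - z') ∈ closedBall (0 : Z m) B}).indicator
          (1 : Z m → ℝ≥0∞) u = (closedBall (0 : Z m) B).indicator (1 : Z m → ℝ≥0∞)
          (Lo η s (u - z')) := by
        intro u
        by_cases h : Lo η s (u - z') ∈ closedBall (0 : Z m) B
        · rw [indicator_of_mem h, indicator_of_mem (by exact h)]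
          rfl
        · rw [indicator_of_notMem h, indicator_of_notMem (by exact h)]
      rw [lintegral_congr e8]
      rw [lintegral_sub_right_eq_self
        (fun u => (closedBall (0 : Z m) B).indicator (1 : Z m → ℝ≥0∞) (Lo η s u)) z']
      rw [(hLOI m η s hs).1 (fun u => (closedBall (0 : Z m) B).indicator (1 : Z m → ℝ≥0∞) u)]
      rw [lintegral_indicator_one hmB]
    rw [e1, ← e7]
    exact measure_mono e2
  have hsp : (0 : ℝ) ≤ (s⁻¹) ^ (m + 2) := by positivity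
  have h2 : (X.card : ℝ≥0∞) ≤ ENNReal.ofReal ((s⁻¹) ^ (m + 2)) * (V / c0) := by
    rw [← mul_div_assoc, ENNReal.le_div_iff_mul_le (Or.inl hc0') (Or.inl hc0t)]
    exact h1
  have hVc : V / c0 ≠ ⊤ := ENNReal.div_ne_top hVt hc0'
  have h3 := ENNReal.toReal_mono (ENNReal.mul_ne_top ENNReal.ofReal_ne_top hVc) h2
  rw [ENNReal.toReal_natCast, ENNReal.toReal_mul, ENNReal.toReal_ofReal hsp] at h3
  calc (X.card : ℝ) ≤ (s⁻¹) ^ (m + 2) * (V / c0).toReal := h3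
    _ ≤ ((V / c0).toReal + 1) * (s⁻¹) ^ (m + 2) := by
      rw [mul_comm]
      exact mul_le_mul_of_nonneg_right (by linarith) hsp

/-- energies of the caps -/
private theorem energy (hPUS : T_PUS) {m : ℕ} {β : E m → ℂ} (hβ : IsPU β) {s : ℝ} (hs : 0 < s)
    {G : Z m → ℂ} (hG : TC G) :
    ∑ k ∈ Ks m s, ∫ ζ, ‖cp β (ctr s k) s ζ * G ζ‖ ^ 2 ≤ ∫ ζ, ‖G ζ‖ ^ 2 := by
  have hGc : Continuous G := hG.1.continuous
  have hG2 : Continuous (fun ζ => ‖G ζ‖ ^ 2) := hGc.norm.pow 2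
  have hG3 : HasCompactSupport (fun ζ => ‖G ζ‖ ^ 2) :=
    hG.2.comp_left (g := fun w : ℂ => ‖w‖ ^ 2) (by simp)
  have hint : Integrable (fun ζ => ‖G ζ‖ ^ 2) := hG2.integrable_of_hasCompactSupport hG3
  have hmeas : ∀ k : Fin m → ℤ, Measurable (fun ζ : Z m => cp β (ctr s k) s ζ) := by
    intro k
    unfold cp
    refine hβ.1.continuous.measurable.comp ?_
    have h1 : Measurable (fun ζ : Z m => ζ.1⁻¹ • ζ.2.1) :=
      (measurable_fst.inv).smul (measurable_fst.comp measurable_snd)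
    exact (h1.sub_const (ctr s k)).const_smul s⁻¹
  have hβ1 : ∀ x, ‖β x‖ ≤ 1 ∧ 0 ≤ (β x).re ∧ ‖β x‖ ^ 2 ≤ (β x).re := by
    intro x
    obtain ⟨r, h0, h1, h2⟩ := hβ.2.2.1 x
    rw [h2, Complex.norm_real, Real.norm_eq_abs, abs_of_nonneg h0, Complex.ofReal_re]
    exact ⟨h1, h0, by nlinarith⟩
  have hcp : ∀ (k : Fin m → ℤ) (ζ : Z m), ‖cp β (ctr s k) s ζ * G ζ‖ ^ 2 ≤
      (cp β (ctr s k) s ζ).re * ‖G ζ‖ ^ 2 := by
    intro k ζ
    rw [norm_mul, mul_pow]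
    exact mul_le_mul_of_nonneg_right (hβ1 _).2.2 (by positivity)
  have hI : ∀ k : Fin m → ℤ, Integrable (fun ζ => ‖cp β (ctr s k) s ζ * G ζ‖ ^ 2) := by
    intro k
    refine hint.mono' (((hmeas k).mul hGc.measurable).norm.pow_const 2).aestronglyMeasurable ?_
    refine Filter.Eventually.of_forall fun ζ => ?_
    rw [Real.norm_eq_abs, abs_of_nonneg (by positivity), norm_mul, mul_pow]
    have h1 : ‖cp β (ctr s k) s ζ‖ ^ 2 ≤ 1 := by
      have h2 : ‖cp β (ctr s k) s ζ‖ ≤ 1 := (hβ1 _).1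
      exact pow_le_one₀ (norm_nonneg _) h2
    exact mul_le_of_le_one_left (by positivity) h1
  rw [← integral_finsetSum _ (fun k _ => hI k)]
  refine integral_mono (integrable_finsetSum _ (fun k _ => hI k)) hint fun ζ => ?_
  have h1 := ((hPUS m).1 β s hβ hs).1 (ζ.1⁻¹ • ζ.2.1)
  have h2 : HasSum (fun k : Fin m → ℤ => (cp β (ctr s k) s ζ).re) 1 := by
    have h3 := Complex.hasSum_re h1
    exact h3
  have h4 : ∑ k ∈ Ks m s, (cp β (ctr s k) s ζ).re ≤ 1 :=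
    sum_le_hasSum _ (fun k _ => (hβ1 _).2.1) h2
  calc ∑ k ∈ Ks m s, ‖cp β (ctr s k) s ζ * G ζ‖ ^ 2
      ≤ ∑ k ∈ Ks m s, (cp β (ctr s k) s ζ).re * ‖G ζ‖ ^ 2 :=
        Finset.sum_le_sum fun k _ => hcp k ζ
    _ = (∑ k ∈ Ks m s, (cp β (ctr s k) s ζ).re) * ‖G ζ‖ ^ 2 := by rw [Finset.sum_mul]
    _ ≤ 1 * ‖G ζ‖ ^ 2 := mul_le_mul_of_nonneg_right h4 (by positivity)
    _ = ‖G ζ‖ ^ 2 := one_mul _

private theorem cp_mul {m : ℕ} (β : E m → ℂ) (a : ℂ) (η : E m) (s : ℝ) (ζ : Z m) :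
    cp (fun x => a * β x) η s ζ = a * cp β η s ζ := rfl

private theorem TP_mul {m : ℕ} (β : E m → ℂ) (a : ℂ) (η : E m) (s : ℝ) (G : Z m → ℂ) (z : Z m) :
    TP (fun x => a * β x) η s G z = a * TP β η s G z := by
  unfold TP TF
  rw [← integral_const_mul]
  refine integral_congr_ae (Filter.Eventually.of_forall fun ζ => ?_)
  simp only
  rw [cp_mul]
  ring

/-- the estimate for one cap -/
private theorem perk (hSXB : T_SXB) (hWT3 : T_WT3) (hLOA : T_LOA) (hLOB : T_LOB) (hLOI : T_LOI)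
    (hRSC : T_RSC) (m L : ℕ) (x : ℝ) (hx : 0 < x) (β : E m → ℂ) (D CL : ℝ) (hD : 0 ≤ D)
    (hCL : 1 ≤ CL) (hφ : (fun x => ((CL⁻¹ : ℝ) : ℂ) * β x) ∈ Bp m L) :
    ∃ C : ℝ, 0 < C ∧ ∀ (s κ R A g : ℝ) (G : Z m → ℂ) (η : E m), 0 < s → s ≤ 1 → 0 ≤ κ →
      κ ≤ 1 / 2 → 1 ≤ R * s ^ 2 → 0 < A → 0 ≤ g → Bds m L x κ (R * s ^ 2) g → Cls L κ R A G →
      ‖η‖ ≤ D → SX (2 + x) (TP β η s G) ≤ ENNReal.ofReal (C * (g * A ^ x *
        (R * s ^ 2) ^ (m * x / 2 - 1) * ∫ ζ, ‖cp β η s ζ * G ζ‖ ^ 2)) := by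
  classical
  obtain ⟨N1, hN1, hcount⟩ := count hLOA hLOB hLOI m D (2 * ((m : ℝ) + 1)) hD (by positivity)
  obtain ⟨CR, hCR, hR⟩ := hRSC m L
  obtain ⟨CS, hCS⟩ := hSXB m (2 + x) (by linarith)
  obtain ⟨-, -, -, -, -, hnet⟩ := hWT3 m (m + 3) le_rfl
  have hCL0 : 0 < CL := by linarith
  have hCR0 : 0 < CR := by linarith
  refine ⟨CL ^ (2 + x) * N1 * ((CS : ℝ) + 1) * CR ^ x * (CL⁻¹) ^ 2, by positivity, ?_⟩
  intro s κ R A g G η hs hs1 hκ hκ2 hRs hA hg hBd hG hη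
  obtain ⟨G', hG', hTF, hInt⟩ := hR κ R A G _ η s hφ hκ hκ2 hA hs hs1 hRs hG
  set f : Z m → ℂ := TF G' with hf
  set S : ℝ≥0∞ := SX (2 + x) f with hS
  -- the bound at the smaller scale
  have hI2 : ∫ ζ, ‖cp (fun x => ((CL⁻¹ : ℝ) : ℂ) * β x) η s ζ * G ζ‖ ^ 2 =
      (CL⁻¹) ^ 2 * ∫ ζ, ‖cp β η s ζ * G ζ‖ ^ 2 := by
    rw [← integral_const_mul]
    refine integral_congr_ae (Filter.Eventually.of_forall fun ζ => ?_)
    simp only
    rw [cp_mul, mul_assoc, norm_mul, Complex.norm_real, Real.norm_eq_abs,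
      abs_of_nonneg (by positivity), mul_pow]
  have hSb : S ≤ ENNReal.ofReal (g * (CR * A) ^ x * (R * s ^ 2) ^ (m * x / 2 - 1) *
      (s ^ (m + 2) * ((CL⁻¹) ^ 2 * ∫ ζ, ‖cp β η s ζ * G ζ‖ ^ 2))) := by
    have h := hBd (CR * A) G' (by positivity) hG'
    rw [hInt, hI2] at h
    exact h
  set J : ℝ := ∫ ζ, ‖cp β η s ζ * G ζ‖ ^ 2 with hJ
  have hJ0 : 0 ≤ J := integral_nonneg fun _ => by positivity
  -- the sums
  refine iSup₂_le fun X hX => ?_
  choose l hl using fun z : Z m => hnet (Lo η s z)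
  have hnorm : ∀ z : Z m, ‖TP β η s G z‖ₑ ^ (2 + x) =
      ENNReal.ofReal (CL ^ (2 + x)) * ‖f (Lo η s z)‖ₑ ^ (2 + x) := by
    intro z
    have h1 : TP β η s G z = (CL : ℂ) * f (Lo η s z) := by
      rw [hTF z, TP_mul, ← mul_assoc, Complex.ofReal_inv, mul_inv_cancel₀, one_mul]
      exact_mod_cast hCL0.ne'
    have h2 : ‖(CL : ℂ)‖ₑ = ENNReal.ofReal CL := by
      rw [← ofReal_norm, Complex.norm_real, Real.norm_eq_abs, abs_of_nonneg hCL0.le]
    rw [h1, enorm_mul, ENNReal.mul_rpow_of_nonneg _ _ (by linarith), h2,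
      ENNReal.ofReal_rpow_of_pos hCL0]
  have hM : ∀ z : Z m, ‖f (Lo η s z)‖ₑ ≤ Mj 1 f (l z) := by
    intro z
    unfold Mj
    refine le_iSup₂_of_le (f := fun (z' : Z m)
      (_ : ‖(1 : ℝ)⁻¹ ^ 2 • z' - zc (l z)‖ ≤ (m : ℝ) + 1) => ‖f z'‖ₑ) (Lo η s z) ?_ le_rfl
    rw [inv_one, one_pow, one_smul]
    exact hl z
  have hcardj : ∀ j : Zi m, ((X.filter fun z => l z = j).card : ℝ≥0∞) ≤
      ENNReal.ofReal (N1 * (s⁻¹) ^ (m + 2)) := by
    intro j
    rcases (X.filter fun z => l z = j).eq_empty_or_nonempty with h | ⟨z', hz'⟩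
    · rw [h]; simp
    · have h1 := hcount η s z' (X.filter fun z => l z = j) hη hs hs1 (by
        intro a ha b hb hab
        exact hX a (Finset.mem_of_mem_filter a ha) b (Finset.mem_of_mem_filter b hb) hab) (by
        intro z hz
        have e1 := hl z
        have e2 := hl z'
        rw [(Finset.mem_filter.1 hz).2] at e1
        rw [(Finset.mem_filter.1 hz').2] at e2
        calc ‖Lo η s z - Lo η s z'‖ = ‖(Lo η s z - zc j) - (Lo η s z' - zc j)‖ := by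
              congr 1; abel
          _ ≤ ‖Lo η s z - zc j‖ + ‖Lo η s z' - zc j‖ := norm_sub_le _ _
          _ ≤ 2 * ((m : ℝ) + 1) := by linarith)
      rw [← ENNReal.ofReal_natCast]
      exact ENNReal.ofReal_le_ofReal h1
  have hsum : ∑ z ∈ X, (Mj 1 f (l z)) ^ (2 + x) ≤
      ENNReal.ofReal (N1 * (s⁻¹) ^ (m + 2)) * ∑' j : Zi m, Mj 1 f j ^ (2 + x) := by
    rw [← Finset.sum_fiberwise_of_maps_to (t := X.image l)
      (fun z hz => Finset.mem_image_of_mem l hz)]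
    calc ∑ j ∈ X.image l, ∑ z ∈ X with l z = j, (Mj 1 f (l z)) ^ (2 + x)
        ≤ ∑ j ∈ X.image l, ENNReal.ofReal (N1 * (s⁻¹) ^ (m + 2)) * Mj 1 f j ^ (2 + x) := by
          refine Finset.sum_le_sum fun j _ => ?_
          have e1 : ∑ z ∈ X with l z = j, (Mj 1 f (l z)) ^ (2 + x) =
              ∑ z ∈ X with l z = j, (Mj 1 f j) ^ (2 + x) :=
            Finset.sum_congr rfl fun z hz => by rw [(Finset.mem_filter.1 hz).2]
          rw [e1, Finset.sum_const, nsmul_eq_mul]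
          exact mul_le_mul_left (hcardj j) _
      _ = ENNReal.ofReal (N1 * (s⁻¹) ^ (m + 2)) * ∑ j ∈ X.image l, Mj 1 f j ^ (2 + x) := by
          rw [Finset.mul_sum]
      _ ≤ _ := mul_le_mul_right (ENNReal.sum_le_tsum _) _
  calc ∑ z ∈ X, ‖TP β η s G z‖ₑ ^ (2 + x)
      = ENNReal.ofReal (CL ^ (2 + x)) * ∑ z ∈ X, ‖f (Lo η s z)‖ₑ ^ (2 + x) := by
        rw [Finset.mul_sum]
        exact Finset.sum_congr rfl fun z _ => hnorm z
    _ ≤ ENNReal.ofReal (CL ^ (2 + x)) * ∑ z ∈ X, (Mj 1 f (l z)) ^ (2 + x) := by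
        refine mul_le_mul_right (Finset.sum_le_sum fun z _ => ?_) _
        exact ENNReal.rpow_le_rpow (hM z) (by linarith)
    _ ≤ ENNReal.ofReal (CL ^ (2 + x)) * (ENNReal.ofReal (N1 * (s⁻¹) ^ (m + 2)) *
          (ENNReal.ofReal ((CS : ℝ) + 1) * ENNReal.ofReal (g * (CR * A) ^ x *
          (R * s ^ 2) ^ (m * x / 2 - 1) * (s ^ (m + 2) * ((CL⁻¹) ^ 2 * J))))) := by
        refine mul_le_mul_right (hsum.trans (mul_le_mul_right ?_ _)) _
        refine (hCS 1 f le_rfl).trans (mul_le_mul' ?_ hSb)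
        rw [← ENNReal.ofReal_coe_nnreal]
        exact ENNReal.ofReal_le_ofReal (by linarith)
    _ = _ := by
        rw [← ENNReal.ofReal_mul (by positivity), ← ENNReal.ofReal_mul (by positivity),
          ← ENNReal.ofReal_mul (by positivity)]
        congr 1
        have hss : (s⁻¹) ^ (m + 2) * s ^ (m + 2) = 1 := by
          rw [← mul_pow, inv_mul_cancel₀ hs.ne', one_pow]
        rw [Real.mul_rpow hCR0.le hA.le]
        calc CL ^ (2 + x) * (N1 * s⁻¹ ^ (m + 2) * (((CS : ℝ) + 1) * (g * (CR ^ x * A ^ x) *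
              (R * s ^ 2) ^ (m * x / 2 - 1) * (s ^ (m + 2) * ((CL⁻¹) ^ 2 * J)))))
            = (s⁻¹ ^ (m + 2) * s ^ (m + 2)) * (CL ^ (2 + x) * N1 * ((CS : ℝ) + 1) * CR ^ x *
              (CL⁻¹) ^ 2 * (g * A ^ x * (R * s ^ 2) ^ (m * x / 2 - 1) * J)) := by ring
          _ = _ := by rw [hss, one_mul]

/-- NRS: rescaling of all the caps of radius `1/K` -/
theorem pf_NRS (hSXB : T_SXB) (hRSC : T_RSC) (hPUB : T_PUB) (hPUS : T_PUS) (hLOA : T_LOA)
    (hLOB : T_LOB) (hLOI : T_LOI) (hWT3 : T_WT3) : T_NRS := by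
  classical
  intro m L x β _hm hx hβ
  obtain ⟨CL, hCL, hφ⟩ := hPUB m L β hβ
  obtain ⟨-, -, D, hD, -, -, hctr⟩ := hPUS m
  obtain ⟨C, hC, hper⟩ := perk hSXB hWT3 hLOA hLOB hLOI hRSC m L x hx β D CL hD.le hCL hφ
  refine ⟨C, hC, ?_⟩
  intro K κ R A g G hK hκ hκ2 hKR hA hg hBd hG
  have hK0 : 0 < K := by linarith
  have hR0 : 0 < R := lt_of_lt_of_le (by positivity) hKR
  have hs : 0 < K⁻¹ := by positivity
  have hs1 : K⁻¹ ≤ 1 := inv_le_one_of_one_le₀ hK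
  have hRK : R * K⁻¹ ^ 2 = R / K ^ 2 := by rw [inv_pow, div_eq_mul_inv]
  have hRs : 1 ≤ R * K⁻¹ ^ 2 := by
    rw [hRK, le_div_iff₀ (by positivity), one_mul]
    exact hKR
  set Q : ℝ := g * A ^ x * (R / K ^ 2) ^ (m * x / 2 - 1) with hQ
  have hQ0 : 0 ≤ Q := by positivity
  have hk : ∀ k ∈ Ks m K⁻¹, SX (2 + x) (uk β K G k) ≤
      ENNReal.ofReal (C * (Q * ∫ ζ, ‖cp β (ctr K⁻¹ k) K⁻¹ ζ * G ζ‖ ^ 2)) := by
    intro k hk
    have h := hper K⁻¹ κ R A g G (ctr K⁻¹ k) hs hs1 hκ hκ2 hRs hA hg (by rw [hRK]; exact hBd) hG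
      (hctr K⁻¹ k hs hs1 hk)
    rw [hRK] at h
    exact h
  have hI : ∀ k : Fin m → ℤ, 0 ≤ ∫ ζ, ‖cp β (ctr K⁻¹ k) K⁻¹ ζ * G ζ‖ ^ 2 := fun k =>
    integral_nonneg fun _ => by positivity
  refine (Finset.sum_le_sum hk).trans ?_
  rw [← ENNReal.ofReal_sum_of_nonneg (fun k _ => mul_nonneg hC.le (mul_nonneg hQ0 (hI k)))]
  refine ENNReal.ofReal_le_ofReal ?_
  rw [← Finset.mul_sum, ← Finset.mul_sum]
  have hRK3 : (R / K ^ 2) ^ (m * x / 2 - 1) = R ^ (m * x / 2 - 1) * K ^ (2 - m * x) := by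
    rw [Real.div_rpow hR0.le (by positivity), ← Real.rpow_natCast K 2, ← Real.rpow_mul hK0.le,
      div_eq_mul_inv, ← Real.rpow_neg hK0.le]
    congr 2
    push_cast
    ring
  calc C * (Q * ∑ k ∈ Ks m K⁻¹, ∫ ζ, ‖cp β (ctr K⁻¹ k) K⁻¹ ζ * G ζ‖ ^ 2)
      ≤ C * (Q * ∫ ζ, ‖G ζ‖ ^ 2) :=
        mul_le_mul_of_nonneg_left (mul_le_mul_of_nonneg_left (energy hPUS hβ hs hG.1) hQ0) hC.le
    _ = _ := by rw [hQ, hRK3]; ring

end Pool.Agent.H13.G4.NRS
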